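import Pool.Agent.H30.RK.Fin
import Pool.Agent.H30.RK.Rnk
import Pool.Agent.H30.RK.Sup
import Pool.Agent.H61.RK.SOC
import Pool.Agent.H59.RK.OUT
import Pool.Agent.H59.RK.PERM

/-!
# The rank of a finite group is linearly bounded by the number of orbit sizes

`G` is a finite group, `F` a field with more elements than `G` has subgroups and of characteristic
zero or coprime to `|G|`, `V` a faithful `F G`-module with `n` orbit sizes.

The theorem is about all finite groups `G` such that each nonabelian simple group `S` which is a
quotient of a subgroup of `G`
* has even order (Feit and Thompson: no restriction),
* is generated by `c` soluble subgroups (for `c = 2` no restriction: all finite simple groups are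
  generated by two elements, by their classification), and
* has a soluble outer automorphism group (Schreier's conjecture, no restriction by the
  classification).
Every subgroup of `G` is generated by `(c + 2) (4 n - 3)` elements.

Proof: by the library the soluble subgroups of `G` are generated by `m = 4 n - 3` elements. For
`H ≤ G` let `R` be the soluble radical, `X = H / R`. The minimal normal subgroups of `X` are products
of nonabelian simple groups; let `𝒮` be the set of all these factors, `N` their product, so that
`N` has a trivial centralizer in `X`, and `K` the kernel of the permutation action of `X` on `𝒮`.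
Involutions in the factors generate an elementary abelian group of order `2 ^ |𝒮|`, whose preimage
in `H` is soluble: `|𝒮| ≤ m`. `X` is generated by `K` and `|𝒮|` elements. `K / N` is soluble, so `N`
has a soluble supplement in `K`. `N` is generated by `c` soluble subgroups. So `H` is generated by
`c + 1` soluble subgroups and `|𝒮|` elements.
-/

set_option autoImplicit false

namespace Pool.Agent.Results.MP_518c18_al.AllFiniteGroups

open Pool.Agent.H30.RK

theorem main : S_MAIN :=
  Pool.Agent.H30.RK.main Pool.Agent.H59.RK.perm Pool.Agent.H61.RK.soc Pool.Agent.H30.RK.sup
    Pool.Agent.H59.RK.out Pool.Agent.H30.RK.rnk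

/-- For every finite group `G`, every field `F` with more elements than `G` has subgroups and of
characteristic zero or coprime to `|G|`, and every faithful representation `V` of `G` over `F`,
with `n` the number of orbit sizes of `G` on `V`: if every nonabelian simple group `S` which is a
quotient of a subgroup of `G` has even order, is generated by `c` soluble subgroups, and some term
of the derived series of its automorphism group consists of inner automorphisms, then every
subgroup of `G` is generated by at most `(c + 2) * (4 * n - 3)` elements. -/
theorem result (G : Type) [Group G] [Finite G] (F : Type) [Field F]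
    (V : Type) [AddCommGroup V] [Module F V] (ρ : Representation F G V)
    (hρ : Function.Injective ρ) (hF : Cardinal.mk (Subgroup G) < Cardinal.mk F)
    (hchar : ringChar F = 0 ∨ Nat.Coprime (ringChar F) (Nat.card G)) (c : ℕ)
    (hG : ∀ (A : Subgroup G) (S : Type) [Group S] (f : A →* S), Function.Surjective f →
      IsSimpleGroup S → (∃ a b : S, a * b ≠ b * a) →
      Even (Nat.card S) ∧
        (∃ B : Fin c → Subgroup S, (∀ i, Group.IsSolvable (B i)) ∧ ⨆ i, B i = ⊤) ∧
        ∃ l : ℕ, derivedSeries (MulAut S) l ≤ (MulAut.conj : S →* MulAut S).range)
    (H : Subgroup G) :
    ∃ s : Finset G,
      s.card ≤ (c + 2) * (4 * Set.ncard {k : ℕ | ∃ v : V,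
        Set.ncard (Set.range fun g : G => ρ g v) = k} - 3) ∧
      Subgroup.closure (s : Set G) = H :=
  orbit main G F V ρ hρ hF hchar c hG H

end Pool.Agent.Results.MP_518c18_al.AllFiniteGroups
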